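import Pool.Agent.H93.Q1b

namespace Pool.Agent.H93

open Nat Part Filter

/-- `r`-th binary digit -/
def bit (u r : ℕ) : ℕ := u / 2 ^ r % 2

theorem bit_le (u r : ℕ) : bit u r ≤ 1 := by unfold bit; omega

/-- Hamming distance of the first `N` binary digits -/
def hd (N u w : ℕ) : ℕ := Nat.rec 0 (fun k ih => ih + ne01 (bit u k) (bit w k)) N

theorem hd_zero (u w : ℕ) : hd 0 u w = 0 := rfl
theorem hd_succ (N u w : ℕ) : hd (N + 1) u w = hd N u w + ne01 (bit u N) (bit w N) := rfl

theorem hd_comm (N u w : ℕ) : hd N u w = hd N w u := by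
  induction N with
  | zero => rfl
  | succ k ih => rw [hd_succ, hd_succ, ih]; simp [ne01, eq_comm]

theorem hd_triangle (N u v w : ℕ) : hd N u w ≤ hd N u v + hd N v w := by
  induction N with
  | zero => simp [hd_zero]
  | succ k ih =>
    rw [hd_succ, hd_succ, hd_succ]
    have : ne01 (bit u k) (bit w k) ≤ ne01 (bit u k) (bit v k) + ne01 (bit v k) (bit w k) := by
      unfold ne01
      split_ifs with h1 h2 h3 <;> simp_all
    omega

theorem hd_le (N u w : ℕ) : hd N u w ≤ N := by
  induction N with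
  | zero => simp [hd_zero]
  | succ k ih =>
    rw [hd_succ]
    have : ne01 (bit u k) (bit w k) ≤ 1 := by unfold ne01; split_ifs <;> omega
    omega

theorem hd_congr {N u u' w w' : ℕ} (h : ∀ r < N, bit u r = bit u' r)
    (h' : ∀ r < N, bit w r = bit w' r) : hd N u w = hd N u' w' := by
  induction N with
  | zero => rfl
  | succ k ih =>
    rw [hd_succ, hd_succ, ih (fun r hr => h r (by omega)) (fun r hr => h' r (by omega)),
      h k (by omega), h' k (by omega)]

theorem bit_add_pow {N w r : ℕ} (hr : r < N) : bit (2 ^ N + w) r = bit w r := by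
  unfold bit
  have e : 2 ^ N = (2 ^ (N - r - 1) * 2) * 2 ^ r := by
    have : N = (N - r - 1) + 1 + r := by omega
    conv_lhs => rw [this]
    rw [pow_add, pow_succ]
  rw [e, add_comm, Nat.add_mul_div_right _ _ (by positivity), Nat.add_mul_mod_self_right]

theorem bit_top {N w : ℕ} (hw : w < 2 ^ N) : bit w N = 0 := by
  unfold bit; rw [Nat.div_eq_of_lt hw]

theorem bit_add_top {N w : ℕ} (hw : w < 2 ^ N) : bit (2 ^ N + w) N = 1 := by
  unfold bit
  rw [add_comm, Nat.add_div_right _ (by positivity), Nat.div_eq_of_lt hw]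

theorem weight_sum (N u : ℕ) : ∑ w ∈ Finset.range (2 ^ N), 16 ^ (N - hd N u w) = 17 ^ N := by
  induction N with
  | zero => simp
  | succ k ih =>
    rw [pow_succ 2, mul_two, Finset.sum_range_add, ← Finset.sum_add_distrib, pow_succ 17, ← ih,
      Finset.sum_mul]
    refine Finset.sum_congr rfl (fun w hw => ?_)
    rw [Finset.mem_range] at hw
    have h1 : hd k u (2 ^ k + w) = hd k u w := hd_congr (fun _ _ => rfl) (fun r hr => bit_add_pow hr)
    rw [hd_succ, hd_succ, h1, bit_top hw, bit_add_top hw]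
    have hle := hd_le k u w
    have hb := bit_le u k
    have e1 : k + 1 - hd k u w = (k - hd k u w) + 1 := by omega
    have e2 : k + 1 - (hd k u w + 1) = (k - hd k u w) := by omega
    interval_cases h : bit u k
    · simp only [ne01, if_true, add_zero, e1, zero_ne_one, if_false, e2]
      rw [pow_succ]; ring
    · simp only [ne01, if_true, add_zero, e1, one_ne_zero, if_false, e2]
      rw [pow_succ]; ring

theorem ball_card {N : ℕ} (hN : 0 < N) (u : ℕ) :
    ((Finset.range (2 ^ N)).filter (fun w => 16 * hd N u w < N)).card ^ 2 ≤ 2 ^ N := by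
  set B := (Finset.range (2 ^ N)).filter (fun w => 16 * hd N u w < N) with hB
  set D := (N - 1) / 16 with hD
  have h1 : B.card * 16 ^ (N - D) ≤ 17 ^ N := by
    rw [← weight_sum N u]
    calc B.card * 16 ^ (N - D) = ∑ w ∈ B, 16 ^ (N - D) := by simp
      _ ≤ ∑ w ∈ B, 16 ^ (N - hd N u w) := by
        refine Finset.sum_le_sum (fun w hw => ?_)
        rw [hB, Finset.mem_filter] at hw
        refine Nat.pow_le_pow_right (by norm_num) ?_
        omega
      _ ≤ _ := Finset.sum_le_sum_of_subset (Finset.filter_subset _ _)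
  have h2 : 17 ^ (8 * N) ≤ 2 ^ N * 16 ^ (8 * N) := by
    rw [pow_mul, pow_mul, ← mul_pow]
    exact Nat.pow_le_pow_left (by norm_num) N
  have hDN : D ≤ N := by omega
  have h3 : B.card ^ 8 * 16 ^ (8 * (N - D)) ≤ 2 ^ N * 16 ^ (8 * N) := by
    calc B.card ^ 8 * 16 ^ (8 * (N - D)) = (B.card * 16 ^ (N - D)) ^ 8 := by
          rw [mul_pow, ← pow_mul, mul_comm (N - D) 8]
      _ ≤ (17 ^ N) ^ 8 := Nat.pow_le_pow_left h1 8
      _ = 17 ^ (8 * N) := by rw [← pow_mul, mul_comm]
      _ ≤ _ := h2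
  have h4 : B.card ^ 8 ≤ 2 ^ N * 16 ^ (8 * D) := by
    have e : 16 ^ (8 * N) = 16 ^ (8 * D) * 16 ^ (8 * (N - D)) := by
      rw [← pow_add]; congr 1; omega
    rw [e, ← mul_assoc] at h3
    exact Nat.le_of_mul_le_mul_right h3 (by positivity)
  have h5 : B.card ^ 8 ≤ (2 ^ N) ^ 4 := by
    refine h4.trans ?_
    have e : (16 : ℕ) ^ (8 * D) = 2 ^ (32 * D) := by
      rw [show (16 : ℕ) = 2 ^ 4 by norm_num, ← pow_mul]; congr 1; ring
    rw [e, ← pow_add, ← pow_mul]
    exact Nat.pow_le_pow_right (by norm_num) (by omega)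
  have h6 : (B.card ^ 2) ^ 4 ≤ (2 ^ N) ^ 4 := by rw [← pow_mul]; exact h5
  exact (Nat.pow_le_pow_iff_left (by norm_num)).1 h6

end Pool.Agent.H93
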