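import Pool.Agent.H93.Codes

namespace Pool.Agent.H93

open Nat Part Filter

/-- next code word of the greedy code -/
def nxt (N : ℕ) (l : List ℕ) : ℕ :=
  Nat.findGreatest (fun w => w < 2 ^ N ∧ ∀ u ∈ l, N ≤ 16 * hd N u w) (2 ^ N)

theorem nxt_exists {N : ℕ} (hN : 0 < N) {l : List ℕ} (hl : l.length ^ 2 < 2 ^ N) :
    ∃ w, w < 2 ^ N ∧ ∀ u ∈ l, N ≤ 16 * hd N u w := by
  by_contra hcon
  push Not at hcon
  have hsub : Finset.range (2 ^ N) ⊆ l.toFinset.biUnion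
      (fun u => (Finset.range (2 ^ N)).filter (fun w => 16 * hd N u w < N)) := by
    intro w hw
    rw [Finset.mem_range] at hw
    obtain ⟨u, hu, h⟩ := hcon w hw
    rw [Finset.mem_biUnion]
    exact ⟨u, by simpa using hu, by simp [hw, h]⟩
  have h1 := Finset.card_le_card hsub
  rw [Finset.card_range] at h1
  have h2 : (l.toFinset.biUnion
      (fun u => (Finset.range (2 ^ N)).filter (fun w => 16 * hd N u w < N))).card
      ≤ l.toFinset.card * Nat.sqrt (2 ^ N) := by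
    apply Finset.card_biUnion_le_card_mul
    intro u _
    exact Nat.le_sqrt'.2 (ball_card hN u)
  have h3 : 2 ^ N ≤ l.length * Nat.sqrt (2 ^ N) :=
    h1.trans (h2.trans (Nat.mul_le_mul_right _ (List.toFinset_card_le l)))
  have h4 : (2 ^ N) ^ 2 ≤ l.length ^ 2 * 2 ^ N := by
    calc (2 ^ N) ^ 2 ≤ (l.length * Nat.sqrt (2 ^ N)) ^ 2 := Nat.pow_le_pow_left h3 2
      _ = l.length ^ 2 * (Nat.sqrt (2 ^ N)) ^ 2 := by rw [mul_pow]
      _ ≤ _ := Nat.mul_le_mul_left _ (Nat.sqrt_le' _)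
  have h5 : 2 ^ N ≤ l.length ^ 2 := by
    rw [sq] at h4
    exact Nat.le_of_mul_le_mul_right h4 (by positivity)
  omega

theorem nxt_spec {N : ℕ} (hN : 0 < N) {l : List ℕ} (hl : l.length ^ 2 < 2 ^ N) :
    nxt N l < 2 ^ N ∧ ∀ u ∈ l, N ≤ 16 * hd N u (nxt N l) := by
  obtain ⟨w, hw⟩ := nxt_exists hN hl
  exact Nat.findGreatest_spec (P := fun w => w < 2 ^ N ∧ ∀ u ∈ l, N ≤ 16 * hd N u w) hw.1.le hw

/-- greedy list -/
def greedy (N : ℕ) (k : ℕ) : List ℕ := Nat.rec [] (fun _ l => l ++ [nxt N l]) k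

/-- greedy code -/
def C (N v : ℕ) : ℕ := nxt N (greedy N v)

theorem greedy_eq (N k : ℕ) : greedy N k = (List.range k).map (C N) := by
  induction k with
  | zero => rfl
  | succ k ih =>
    rw [List.range_succ, List.map_append, ← ih]
    rfl

theorem C_spec {N v : ℕ} (hN : 0 < N) (hv : v ^ 2 < 2 ^ N) :
    C N v < 2 ^ N ∧ ∀ u < v, N ≤ 16 * hd N (C N u) (C N v) := by
  have h1 : (greedy N v).length = v := by rw [greedy_eq]; simp
  have h2 := nxt_spec (l := greedy N v) hN (by rw [h1]; exact hv)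
  refine ⟨h2.1, fun u hu => h2.2 _ ?_⟩
  rw [greedy_eq]
  simp only [List.mem_map, List.mem_range]
  exact ⟨u, hu, rfl⟩

theorem C_far {N u v : ℕ} (hN : 0 < N) (hu : u ^ 2 < 2 ^ N) (hv : v ^ 2 < 2 ^ N) (h : u ≠ v) :
    N ≤ 16 * hd N (C N u) (C N v) := by
  rcases lt_or_gt_of_ne h with h | h
  · exact (C_spec hN hv).2 u h
  · rw [hd_comm]; exact (C_spec hN hu).2 v h

theorem primrec_bit : Primrec₂ bit := by
  unfold bit
  exact Primrec.nat_mod.comp₂ (Primrec.nat_div.comp₂ Primrec₂.left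
    (primrec_pow.comp₂ (Primrec₂.const 2) Primrec₂.right)) (Primrec₂.const 2)

theorem primrec_hd : Primrec (fun p : ℕ × ℕ × ℕ => hd p.1 p.2.1 p.2.2) := by
  unfold hd
  refine Primrec.nat_rec' (f := fun p : ℕ × ℕ × ℕ => p.1) (g := fun _ => 0)
    (h := fun (p : ℕ × ℕ × ℕ) (q : ℕ × ℕ) => q.2 + ne01 (bit p.2.1 q.1) (bit p.2.2 q.1))
    Primrec.fst (Primrec.const 0) ?_
  have a1 : Primrec₂ (fun (p : ℕ × ℕ × ℕ) (q : ℕ × ℕ) => bit p.2.1 q.1) :=
    primrec_bit.comp₂ ((Primrec.fst.comp Primrec.snd).comp₂ Primrec₂.left)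
      (Primrec.fst.comp₂ Primrec₂.right)
  have a2 : Primrec₂ (fun (p : ℕ × ℕ × ℕ) (q : ℕ × ℕ) => bit p.2.2 q.1) :=
    primrec_bit.comp₂ ((Primrec.snd.comp Primrec.snd).comp₂ Primrec₂.left)
      (Primrec.fst.comp₂ Primrec₂.right)
  exact Primrec.nat_add.comp₂ (Primrec.snd.comp₂ Primrec₂.right) (primrec_ne01.comp₂ a1 a2)

theorem primrec_nxt : Primrec₂ nxt := by
  unfold nxt
  refine Primrec.nat_findGreatest (α := ℕ × List ℕ) (f := fun x => 2 ^ x.1)
    (p := fun x w => w < 2 ^ x.1 ∧ ∀ u ∈ x.2, x.1 ≤ 16 * hd x.1 u w)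
    (primrec_pow.comp (Primrec.const 2) Primrec.fst) ?_
  have h2 : PrimrecRel (fun (u : ℕ) (b : ℕ × ℕ) => b.1 ≤ 16 * hd b.1 u b.2) := by
    refine PrimrecRel.comp Primrec.nat_le (Primrec.fst.comp Primrec.snd) ?_
    refine Primrec.nat_mul.comp (Primrec.const 16) ?_
    have : Primrec (fun q : ℕ × ℕ × ℕ => ((q.2.1, q.1, q.2.2) : ℕ × ℕ × ℕ)) :=
      Primrec.pair (Primrec.fst.comp Primrec.snd)
        (Primrec.pair Primrec.fst (Primrec.snd.comp Primrec.snd))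
    exact primrec_hd.comp this
  have h3 := h2.forall_mem_list
  have h4 : PrimrecPred (fun x : (ℕ × List ℕ) × ℕ => ∀ u ∈ x.1.2, x.1.1 ≤ 16 * hd x.1.1 u x.2) :=
    h3.comp (Primrec.snd.comp Primrec.fst) (Primrec.pair (Primrec.fst.comp Primrec.fst) Primrec.snd)
  have h5 : PrimrecPred (fun x : (ℕ × List ℕ) × ℕ => x.2 < 2 ^ x.1.1) :=
    Primrec.nat_lt.comp Primrec.snd (primrec_pow.comp (Primrec.const 2) (Primrec.fst.comp Primrec.fst))
  exact (h5.and h4)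

theorem primrec_greedy : Primrec₂ greedy := by
  unfold greedy
  refine Primrec.nat_rec' (α := ℕ × ℕ) (f := fun p => p.2) (g := fun _ => ([] : List ℕ))
    (h := fun (p : ℕ × ℕ) (q : ℕ × List ℕ) => q.2 ++ [nxt p.1 q.2])
    Primrec.snd (Primrec.const []) ?_
  refine Primrec.list_concat.comp₂ (Primrec.snd.comp₂ Primrec₂.right) ?_
  exact primrec_nxt.comp₂ (Primrec.fst.comp₂ Primrec₂.left) (Primrec.snd.comp₂ Primrec₂.right)

theorem primrec_C : Primrec₂ C := by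
  unfold C
  exact primrec_nxt.comp₂ Primrec₂.left primrec_greedy

end Pool.Agent.H93
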