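import Pool.Agent.H93.TR

namespace Pool.Agent.H93

open Nat Part

/-- the number whose binary digits are `b 0, ..., b (N-1)` -/
def code (b : ℕ → ℕ) (N : ℕ) : ℕ := Nat.rec 0 (fun k ih => ih + b k * 2 ^ k) N

theorem code_zero (b : ℕ → ℕ) : code b 0 = 0 := rfl
theorem code_succ (b : ℕ → ℕ) (N : ℕ) : code b (N + 1) = code b N + b N * 2 ^ N := rfl

theorem code_lt {b : ℕ → ℕ} (hb : ∀ n, b n ≤ 1) (N : ℕ) : code b N < 2 ^ N := by
  induction N with
  | zero => simp [code_zero]
  | succ k ih =>
    rw [code_succ, pow_succ]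
    have := hb k
    nlinarith [Nat.pos_of_ne_zero (pow_ne_zero k (two_ne_zero (α := ℕ)))]

theorem code_bit {b : ℕ → ℕ} (hb : ∀ n, b n ≤ 1) {N i : ℕ} (hi : i < N) :
    code b N / 2 ^ i % 2 = b i := by
  induction N with
  | zero => omega
  | succ k ih =>
    rw [code_succ]
    rcases Nat.lt_succ_iff_lt_or_eq.1 hi with h | h
    · have e : b k * 2 ^ k = (b k * 2 ^ (k - i - 1) * 2) * 2 ^ i := by
        have : k = (k - i - 1) + 1 + i := by omega
        conv_lhs => rw [this]
        rw [pow_add, pow_succ]; 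
        have h2 : b (k - i - 1 + 1 + i) = b k := by rw [← this]
        rw [h2]
        ring
      rw [e, Nat.add_mul_div_right _ _ (by positivity), Nat.add_mul_mod_self_right]
      exact ih h
    · subst h
      have h1 := code_lt hb i
      rw [Nat.add_mul_div_right _ _ (by positivity), Nat.div_eq_of_lt h1]
      have := hb i
      omega

theorem primrec_pow : Primrec₂ (fun a b : ℕ => a ^ b) := by
  have := Primrec₂.unpaired'.1 Nat.Primrec.pow
  exact this

theorem TR.code {O : Set (ℕ →. ℕ)} {b : ℕ → ℕ} (hb : TR O b) : TR O (code b) := by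
  unfold Pool.Agent.H93.code
  refine TR.natRec (h := fun k ih => ih + b k * 2 ^ k) 0 ?_
  refine TR.comp₂ Primrec.nat_add.to_comp (TR.of_computable (Computable.snd.comp Computable.unpair)) ?_
  have h1 : TR O (fun p : ℕ => p.unpair.1) := TR.of_computable (Computable.fst.comp Computable.unpair)
  refine TR.comp₂ Primrec.nat_mul.to_comp (hb.comp h1) ?_
  exact TR.comp₂ primrec_pow.to_comp (TR.const 2) h1

/-- 2-adic valuation of a positive number (as a search) -/
def v2 (t : ℕ) : ℕ := Nat.findGreatest (fun k => t % 2 ^ k = 0) t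

theorem v2_eq {m q : ℕ} : v2 (2 ^ m * (2 * q + 1)) = m := by
  unfold v2
  rw [Nat.findGreatest_eq_iff]
  refine ⟨?_, ?_, ?_⟩
  · have : m < 2 ^ m := Nat.lt_two_pow_self
    nlinarith [Nat.zero_le (2 ^ m * (2 * q))]
  · intro _
    exact Nat.mul_mod_right _ _
  · intro n hn _ h
    have h1 : 2 ^ n ∣ 2 ^ m * (2 * q + 1) := Nat.dvd_of_mod_eq_zero h
    have h2 : 2 ^ (m + 1) ∣ 2 ^ m * (2 * q + 1) := (pow_dvd_pow 2 hn).trans h1
    rw [pow_succ] at h2
    have h3 : 2 ∣ 2 * q + 1 := (Nat.mul_dvd_mul_iff_left (by positivity)).1 h2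
    omega

theorem primrec_v2 : Primrec v2 := by
  unfold v2
  refine Primrec.nat_findGreatest (f := fun t => t) (p := fun t k => t % 2 ^ k = 0) Primrec.id ?_
  refine PrimrecRel.comp₂ (Primrec.eq) ?_ (Primrec₂.const 0)
  refine Primrec.nat_mod.comp₂ Primrec₂.left ?_
  exact primrec_pow.comp₂ (Primrec₂.const 2) Primrec₂.right

theorem primrec_factorial : Primrec Nat.factorial := by
  have : Primrec (Nat.rec 1 (fun k ih => (k + 1) * ih) : ℕ → ℕ) := by
    refine Primrec.nat_rec₁ 1 ?_
    exact Primrec.nat_mul.comp₂ (Primrec.succ.comp₂ Primrec₂.left) Primrec₂.right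
  refine this.of_eq (fun n => ?_)
  induction n with
  | zero => rfl
  | succ k ih => simp only [Nat.factorial_succ, ← ih]

/-- end of the `t`-th window -/
def P (t : ℕ) : ℕ := t + v2 (t.factorial)

theorem v2_eq_padic {t : ℕ} (ht : t ≠ 0) : v2 t = padicValNat 2 t := by
  obtain ⟨m, n, hn, rfl⟩ := Nat.exists_eq_two_pow_mul_odd ht
  obtain ⟨q, rfl⟩ := hn
  rw [v2_eq, padicValNat.mul (by positivity) (by omega), padicValNat.prime_pow]
  rw [padicValNat.eq_zero_of_not_dvd (by omega)]
  simp

theorem P_le (t : ℕ) : P t ≤ 2 * t := by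
  unfold P
  rw [v2_eq_padic (Nat.factorial_ne_zero t)]
  have := padicValNat_factorial_le (p := 2) t
  omega

theorem P_succ (t : ℕ) : P (t + 1) = P t + 1 + v2 (t + 1) := by
  unfold P
  rw [v2_eq_padic (Nat.factorial_ne_zero _), v2_eq_padic (Nat.factorial_ne_zero _),
    v2_eq_padic (by omega), Nat.factorial_succ, padicValNat.mul (by omega) (Nat.factorial_ne_zero _)]
  ring

theorem P_mono : StrictMono P := strictMono_nat_of_lt_succ (fun t => by rw [P_succ]; omega)

theorem le_P (t : ℕ) : t ≤ P t := by unfold P; omega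

theorem primrec_P : Primrec P := by
  unfold P
  exact Primrec.nat_add.comp Primrec.id (primrec_v2.comp primrec_factorial)

/-- index of the window containing the block `j` -/
def T (j : ℕ) : ℕ := Nat.findGreatest (fun t => P t ≤ j) j + 1

theorem T_eq {t j : ℕ} (h1 : P t ≤ j) (h2 : j < P (t + 1)) : T j = t + 1 := by
  unfold T
  congr 1
  rw [Nat.findGreatest_eq_iff]
  refine ⟨(le_P t).trans h1, fun _ => h1, ?_⟩
  intro n hn _ h
  have : P (t + 1) ≤ P n := P_mono.monotone hn
  omega

theorem primrec_T : Primrec T := by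
  unfold T
  refine Primrec.succ.comp ?_
  refine Primrec.nat_findGreatest (f := fun j => j) (p := fun j t => P t ≤ j) Primrec.id ?_
  exact PrimrecRel.comp₂ Primrec.nat_le (primrec_P.comp₂ Primrec₂.right) Primrec₂.left

/-- binary logarithm -/
def L (i : ℕ) : ℕ := Nat.findGreatest (fun k => 2 ^ k ≤ i) i

theorem L_le {i a : ℕ} (h : 2 ^ a ≤ i) : a ≤ L i := by
  unfold L
  exact Nat.le_findGreatest (P := fun k => 2 ^ k ≤ i) ((Nat.lt_two_pow_self).le.trans h) h

theorem L_lt {i b : ℕ} (h : i < 2 ^ b) (hi : 0 < i) : L i < b := by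
  unfold L
  have h0 : 2 ^ (Nat.findGreatest (fun k => 2 ^ k ≤ i) i) ≤ i :=
    Nat.findGreatest_spec (P := fun k => 2 ^ k ≤ i) (Nat.zero_le i) (by simpa using Nat.succ_le_of_lt hi)
  exact (Nat.pow_lt_pow_iff_right (by norm_num : 1 < 2)).1 (h0.trans_lt h)

theorem primrec_L : Primrec L := by
  unfold L
  refine Primrec.nat_findGreatest (f := fun j => j) (p := fun i k => 2 ^ k ≤ i) Primrec.id ?_
  exact PrimrecRel.comp₂ Primrec.nat_le (primrec_pow.comp₂ (Primrec₂.const 2) Primrec₂.right)
    Primrec₂.left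

/-- target stage attached to the window `t` -/
def tgt (x2 : ℕ → ℕ) (t : ℕ) : ℕ := x2 (v2 t) % 4 ^ (v2 t) + (t / 2 ^ (v2 t + 1)) * 4 ^ (v2 t)

/-- the (Boolean) set that disagrees with the guessed strings -/
def sb (x1 x2 : ℕ → ℕ) (i : ℕ) : Bool := decide (x1 (tgt x2 (T (L i))) / 2 ^ i % 2 = 0)

theorem computable_tgt {x2 : ℕ → ℕ} (h2 : Computable x2) : Computable (tgt x2) := by
  unfold tgt
  have hv := primrec_v2.to_comp
  have hp : Computable (fun t => 4 ^ v2 t) := primrec_pow.to_comp.comp (Computable.const 4) hv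
  refine Primrec.nat_add.to_comp.comp (Primrec.nat_mod.to_comp.comp (h2.comp hv) hp) ?_
  refine Primrec.nat_mul.to_comp.comp ?_ hp
  refine Primrec.nat_div.to_comp.comp Computable.id ?_
  exact primrec_pow.to_comp.comp (Computable.const 2) (Computable.succ.comp hv)

theorem computable_sb {x1 x2 : ℕ → ℕ} (h1 : Computable x1) (h2 : Computable x2) :
    Computable (sb x1 x2) := by
  unfold sb
  have hd : Computable (fun n : ℕ => decide (n = 0)) := by
    have : PrimrecPred (fun n : ℕ => n = 0) := Primrec.eq.comp Primrec.id (Primrec.const 0)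
    exact this.decide.to_comp
  refine hd.comp (Primrec.nat_mod.to_comp.comp ?_ (Computable.const 2))
  refine Primrec.nat_div.to_comp.comp ?_ (primrec_pow.to_comp.comp (Computable.const 2) Computable.id)
  exact h1.comp ((computable_tgt h2).comp (primrec_T.to_comp.comp primrec_L.to_comp))

end Pool.Agent.H93
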