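import Pool.Agent.H93.Q1a

namespace Pool.Agent.H93

open Nat Part Filter

/-- test function for equality -/
def ne01 (u v : ℕ) : ℕ := if u = v then 0 else 1
/-- test function for strict inequality -/
def le01 (u v : ℕ) : ℕ := if u < v then 0 else 1

theorem primrec_ne01 : Primrec₂ ne01 := by
  unfold ne01
  exact Primrec.ite Primrec.eq (Primrec.const 0) (Primrec.const 1)

theorem primrec_le01 : Primrec₂ le01 := by
  unfold le01
  exact Primrec.ite Primrec.nat_lt (Primrec.const 0) (Primrec.const 1)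

theorem four_pow_le (m : ℕ) : 4 ^ m ≤ 2 ^ (2 ^ m) := by
  have h : 2 * m ≤ 2 ^ m := by
    rcases m with _ | m
    · simp
    · have : m < 2 ^ m := Nat.lt_two_pow_self
      rw [pow_succ]; omega
  calc 4 ^ m = 2 ^ (2 * m) := by rw [pow_mul]; norm_num
    _ ≤ _ := Nat.pow_le_pow_right (by norm_num) h

/-- Core of the argument. `O` is an oracle class none of whose members computes a
function below `2^(2^n)` that is eventually different from all computable functions. -/
theorem core {O : Set (ℕ →. ℕ)} {b : ℕ → ℕ} (hb : ∀ n, b n ≤ 1) (hbO : TR O b)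
    (H : ∀ z : ℕ → ℕ, TR O z → (∀ n, z n < 2 ^ (2 ^ n)) →
      ∃ x : ℕ → ℕ, Computable x ∧ ∃ᶠ n in atTop, x n = z n) :
    ∃ s : ℕ → Bool, Computable s ∧ ∀ m0 : ℕ, ∃ m, m0 ≤ m ∧ ∃ a, m0 ≤ a ∧
      ∀ i, 2 ^ a ≤ i → i < 2 ^ (a + m) → (s i = true ↔ b i = 0) := by
  -- first guess
  have hz1 : TR O (fun n => code b (2 ^ n)) :=
    hbO.code.comp (TR.comp₂ primrec_pow.to_comp (TR.const 2) TR.id)
  obtain ⟨x1, hx1, hf1⟩ := H _ hz1 (fun n => code_lt hb _)
  -- the test function for the next guess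
  set g : ℕ → ℕ → ℕ := fun a n => le01 a n + ne01 (x1 n) (code b (2 ^ n)) with hg
  have hgO : TR O (fun p => g p.unpair.1 p.unpair.2) := by
    have hl : TR O (fun p : ℕ => p.unpair.1) :=
      TR.of_computable (Computable.fst.comp Computable.unpair)
    have hr : TR O (fun p : ℕ => p.unpair.2) :=
      TR.of_computable (Computable.snd.comp Computable.unpair)
    exact TR.comp₂ (F := fun u v => u + v) Primrec.nat_add.to_comp
      (TR.comp₂ primrec_le01.to_comp hl hr)
      (TR.comp₂ primrec_ne01.to_comp ((TR.of_computable hx1).comp hr) (hz1.comp hr))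
  have hgz : ∀ a n, g a n = 0 ↔ (a < n ∧ x1 n = code b (2 ^ n)) := by
    intro a n
    simp only [hg, le01, ne01]
    split_ifs with h1 h2 h2 <;> simp [h1, h2]
  have hex : ∀ a, ∃ n, g a n = 0 := by
    intro a
    obtain ⟨n, hn, h⟩ := (hf1.and_eventually (eventually_gt_atTop a)).exists
    exact ⟨n, (hgz a n).2 ⟨h, hn⟩⟩
  have hz2 : TR O (fun m => Nat.find (hex (4 ^ m)) % 4 ^ m) := by
    have h4 : TR O (fun m => 4 ^ m) := TR.comp₂ primrec_pow.to_comp (TR.const 4) TR.id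
    exact TR.comp₂ Primrec.nat_mod.to_comp ((TR.find hgO hex).comp h4) h4
  obtain ⟨x2, hx2, hf2⟩ := H _ hz2
    (fun m => (Nat.mod_lt _ (by positivity)).trans_le (four_pow_le m))
  refine ⟨sb x1 x2, computable_sb hx1 hx2, ?_⟩
  intro m0
  obtain ⟨m, hm, hm0⟩ := (hf2.and_eventually (eventually_ge_atTop (m0 + 3))).exists
  set n' := Nat.find (hex (4 ^ m)) with hn'
  obtain ⟨hlt, hcode⟩ := (hgz _ _).1 (Nat.find_spec (hex (4 ^ m)))
  rw [← hn'] at hlt hcode
  set q := n' / 4 ^ m with hq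
  have hq1 : 1 ≤ q := by
    rw [hq]; exact (Nat.one_le_div_iff (by positivity)).2 hlt.le
  have hqn : q * 4 ^ m ≤ n' := Nat.div_mul_le_self _ _
  obtain ⟨t', ht'⟩ : ∃ t', 2 ^ m * (2 * q + 1) = t' + 1 :=
    ⟨2 ^ m * (2 * q + 1) - 1, by
      have : 0 < 2 ^ m * (2 * q + 1) := by positivity
      omega⟩
  have hv : v2 (t' + 1) = m := by rw [← ht']; exact v2_eq
  have hPs : P (t' + 1) = P t' + (m + 1) := by rw [P_succ, hv]; ring
  have h8 : 8 ≤ 2 ^ m := by
    calc 8 = 2 ^ 3 := by norm_num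
      _ ≤ 2 ^ m := Nat.pow_le_pow_right (by norm_num) (by omega)
  have hPn : P (t' + 1) ≤ n' := by
    calc P (t' + 1) ≤ 2 * (t' + 1) := P_le _
      _ = 2 * (2 ^ m * (2 * q + 1)) := by rw [ht']
      _ ≤ q * (2 ^ m * 2 ^ m) := by nlinarith [Nat.zero_le (2 ^ m * q), Nat.zero_le (2 ^ m)]
      _ = q * 4 ^ m := by rw [← mul_pow]; norm_num
      _ ≤ n' := hqn
  have htgt : tgt x2 (t' + 1) = n' := by
    unfold tgt
    rw [hv, hm]
    have h1 : (t' + 1) / 2 ^ (m + 1) = q := by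
      rw [← ht', pow_succ, Nat.mul_div_mul_left _ _ (by positivity)]
      omega
    rw [h1, Nat.mod_mod, hq, mul_comm]
    exact Nat.mod_add_div _ _
  refine ⟨m + 1, by omega, P t', ?_, ?_⟩
  · have h1 := le_P t'
    have h2 : m < 2 ^ m := Nat.lt_two_pow_self
    have h3 : 2 ^ m * 1 ≤ 2 ^ m * (2 * q + 1) := Nat.mul_le_mul_left _ (by omega)
    omega
  intro i hi1 hi2
  rw [← hPs] at hi2
  have hi0 : 0 < i := lt_of_lt_of_le (by positivity) hi1
  have hT : T (L i) = t' + 1 := T_eq (L_le hi1) (L_lt hi2 hi0)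
  have hin : i < 2 ^ n' := hi2.trans_le (Nat.pow_le_pow_right (by norm_num) hPn)
  unfold sb
  rw [hT, htgt, hcode, code_bit hb hin]
  simp

end Pool.Agent.H93
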