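import Pool.Agent.H93.Codes2

namespace Pool.Agent.H93

open Nat Part Filter

theorem L_eq {n r : ℕ} (hr : r < 2 ^ n) : L (2 ^ n + r) = n := by
  have h1 : n ≤ L (2 ^ n + r) := L_le (by omega)
  have h2 : L (2 ^ n + r) < n + 1 := L_lt (by rw [pow_succ]; omega) (by positivity)
  omega

theorem hd_card (N u w : ℕ) :
    hd N u w = ((Finset.range N).filter (fun r => bit u r ≠ bit w r)).card := by
  induction N with
  | zero => simp [hd_zero]
  | succ k ih =>
    rw [hd_succ, ih, Finset.range_add_one, Finset.filter_insert]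
    unfold ne01
    by_cases h : bit u k = bit w k
    · simp [h]
    · simp only [h, if_false, ne_eq, not_false_eq_true, if_true]
      rw [Finset.card_insert_of_notMem (by simp)]

/-- complement of the encoded blocks -/
def enc (y : ℕ → ℕ) (i : ℕ) : ℕ :=
  1 - bit (C (2 ^ L i) (y (L i - 1))) (i - 2 ^ L i)

theorem enc_eq (y : ℕ → ℕ) {n r : ℕ} (hr : r < 2 ^ (n + 1)) :
    enc y (2 ^ (n + 1) + r) = 1 - bit (C (2 ^ (n + 1)) (y n)) r := by
  unfold enc
  rw [L_eq hr]
  simp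

theorem TR.enc {O : Set (ℕ →. ℕ)} {y : ℕ → ℕ} (hy : TR O y) : TR O (enc y) := by
  unfold Pool.Agent.H93.enc
  have hF : Primrec₂ (fun i v : ℕ => 1 - bit (C (2 ^ L i) v) (i - 2 ^ L i)) := by
    have hL : Primrec₂ (fun i (_ : ℕ) => 2 ^ L i) :=
      primrec_pow.comp₂ (Primrec₂.const 2) (primrec_L.comp₂ Primrec₂.left)
    refine Primrec.nat_sub.comp₂ (Primrec₂.const 1) (primrec_bit.comp₂ ?_ ?_)
    · exact primrec_C.comp₂ hL Primrec₂.right
    · exact Primrec.nat_sub.comp₂ Primrec₂.left hL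
  refine TR.comp₂ (F := fun i v : ℕ => 1 - bit (C (2 ^ L i) v) (i - 2 ^ L i)) hF.to_comp TR.id
    (hy.comp ?_)
  exact TR.of_computable (Primrec.pred.comp primrec_L).to_comp

theorem computable_block {s : ℕ → Bool} (hs : Computable s) :
    Computable (fun n => code (fun r => (s (2 ^ (n + 1) + r)).toNat) (2 ^ (n + 1))) := by
  unfold code
  have hp : Computable (fun n : ℕ => 2 ^ (n + 1)) :=
    primrec_pow.to_comp.comp (Computable.const 2) Computable.succ
  refine Computable.nat_rec (f := fun n : ℕ => 2 ^ (n + 1)) (g := fun _ => 0)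
    (h := fun n (q : ℕ × ℕ) => q.2 + (s (2 ^ (n + 1) + q.1)).toNat * 2 ^ q.1)
    hp (Computable.const 0) ?_
  have h1 : Computable (fun p : ℕ × ℕ × ℕ => 2 ^ (p.1 + 1) + p.2.1) :=
    Primrec.nat_add.to_comp.comp (hp.comp Computable.fst) (Computable.fst.comp Computable.snd)
  have h2 : Computable (fun b : Bool => b.toNat) := (Primrec.dom_bool _).to_comp
  have h3 : Computable (fun p : ℕ × ℕ × ℕ => (s (2 ^ (p.1 + 1) + p.2.1)).toNat) :=
    h2.comp (hs.comp h1)
  have h4 : Computable (fun p : ℕ × ℕ × ℕ => 2 ^ p.2.1) :=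
    primrec_pow.to_comp.comp (Computable.const 2) (Computable.fst.comp Computable.snd)
  exact Primrec.nat_add.to_comp.comp (Computable.snd.comp Computable.snd)
    (Primrec.nat_mul.to_comp.comp h3 h4)

/-- decoding -/
def dec (n u : ℕ) : ℕ :=
  Nat.findGreatest (fun v => 32 * hd (2 ^ (n + 1)) u (C (2 ^ (n + 1)) v) < 2 ^ (n + 1))
    (2 ^ (2 ^ n) - 1)

theorem primrec_dec : Primrec₂ dec := by
  unfold dec
  have hp1 : Primrec (fun n : ℕ => 2 ^ (n + 1)) := primrec_pow.comp (Primrec.const 2) Primrec.succ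
  refine Primrec.nat_findGreatest (α := ℕ × ℕ) (f := fun x => 2 ^ (2 ^ x.1) - 1)
    (p := fun x v => 32 * hd (2 ^ (x.1 + 1)) x.2 (C (2 ^ (x.1 + 1)) v) < 2 ^ (x.1 + 1)) ?_ ?_
  · refine Primrec.nat_sub.comp (primrec_pow.comp (Primrec.const 2) ?_) (Primrec.const 1)
    exact primrec_pow.comp (Primrec.const 2) Primrec.fst
  · have h1 : Primrec (fun x : (ℕ × ℕ) × ℕ => 2 ^ (x.1.1 + 1)) :=
      hp1.comp (Primrec.fst.comp Primrec.fst)
    refine Primrec.nat_lt.comp (Primrec.nat_mul.comp (Primrec.const 32) ?_) h1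
    refine primrec_hd.comp (Primrec.pair h1 (Primrec.pair (Primrec.snd.comp Primrec.fst) ?_))
    exact primrec_C.comp h1 Primrec.snd

theorem dec_eq {n u v : ℕ} (hv : v < 2 ^ (2 ^ n))
    (h : 32 * hd (2 ^ (n + 1)) u (C (2 ^ (n + 1)) v) < 2 ^ (n + 1)) : dec n u = v := by
  have hsq : ∀ w, w < 2 ^ (2 ^ n) → w ^ 2 < 2 ^ (2 ^ (n + 1)) := by
    intro w hw
    have : (2 : ℕ) ^ (2 ^ (n + 1)) = (2 ^ (2 ^ n)) ^ 2 := by rw [← pow_mul, ← pow_succ]
    rw [this]
    exact Nat.pow_lt_pow_left hw (by norm_num)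
  unfold dec
  rw [Nat.findGreatest_eq_iff]
  refine ⟨by omega, fun _ => h, ?_⟩
  intro w hw hw2 hcon
  have hw3 : w < 2 ^ (2 ^ n) := by
    have : 0 < 2 ^ (2 ^ n) := by positivity
    omega
  have h1 := C_far (N := 2 ^ (n + 1)) (by positivity) (hsq v hv) (hsq w hw3) (by omega)
  have h2 := hd_triangle (2 ^ (n + 1)) (C (2 ^ (n + 1)) v) u (C (2 ^ (n + 1)) w)
  rw [hd_comm _ (C (2 ^ (n + 1)) v) u] at h2
  omega

theorem core2 {y : ℕ → ℕ} (hy : ∀ n, y n < 2 ^ (2 ^ n))
    (hav : ∀ x : ℕ → ℕ, Computable x → ∀ᶠ n in atTop, x n ≠ y n)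
    {s : ℕ → Bool} (hs : Computable s) :
    ∀ᶠ n in atTop, 2 ^ (n + 1) ≤ 32 * ((Finset.range (2 ^ (n + 1))).filter
      (fun r => (s (2 ^ (n + 1) + r) = true ↔ enc y (2 ^ (n + 1) + r) = 1))).card := by
  set sc : ℕ → ℕ := fun n => code (fun r => (s (2 ^ (n + 1) + r)).toNat) (2 ^ (n + 1)) with hsc
  have hx : Computable (fun n => dec n (sc n)) :=
    primrec_dec.to_comp.comp Computable.id (computable_block hs)
  filter_upwards [hav _ hx] with n hn
  by_contra hcon
  apply hn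
  apply dec_eq (hy n)
  rw [hd_card]
  push Not at hcon
  refine lt_of_le_of_lt ?_ hcon
  apply Nat.mul_le_mul_left
  apply Finset.card_le_card
  intro r hr
  rw [Finset.mem_filter, Finset.mem_range] at hr ⊢
  refine ⟨hr.1, ?_⟩
  have h1 : bit (sc n) r = (s (2 ^ (n + 1) + r)).toNat := by
    apply code_bit (fun n => ?_) hr.1
    exact Bool.toNat_le _
  have h2 := hr.2
  rw [h1] at h2
  rw [enc_eq y hr.1]
  have h3 := bit_le (C (2 ^ (n + 1)) (y n)) r
  cases h : s (2 ^ (n + 1) + r)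
  · rw [h] at h2
    simp only [Bool.toNat_false, ne_eq] at h2
    simp only [Bool.false_eq_true, false_iff]
    omega
  · rw [h] at h2
    simp only [Bool.toNat_true, ne_eq] at h2
    simp only [true_iff]
    omega

end Pool.Agent.H93
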