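import Mathlib.Computability.TuringDegree
import Mathlib.Computability.Partrec
import Mathlib.NumberTheory.Padics.PadicVal.Basic
import Mathlib.Tactic

namespace Pool.Agent.H93

open Nat Part

/-- Total functions recursive in a set of oracles. -/
def TR (O : Set (ℕ →. ℕ)) (f : ℕ → ℕ) : Prop := Nat.RecursiveIn O (fun n => Part.some (f n))

variable {O : Set (ℕ →. ℕ)}

theorem TR.of_eq {f g : ℕ → ℕ} (hf : TR O f) (h : ∀ n, f n = g n) : TR O g := by
  have : f = g := funext h
  exact this ▸ hf

theorem TR.of_computable {f : ℕ → ℕ} (hf : Computable f) : TR O f := by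
  have h := Partrec.nat_iff.1 hf.partrec
  exact Nat.Partrec.recursiveIn h

theorem TR.comp {f g : ℕ → ℕ} (hf : TR O f) (hg : TR O g) : TR O (fun n => f (g n)) := by
  have h := Nat.RecursiveIn.comp hf hg
  unfold TR
  convert h using 2
  simp

theorem TR.pair {f g : ℕ → ℕ} (hf : TR O f) (hg : TR O g) :
    TR O (fun n => Nat.pair (f n) (g n)) := by
  have h := Nat.RecursiveIn.pair hf hg
  unfold TR
  convert h using 2
  simp [Seq.seq]

theorem TR.comp₂ {F : ℕ → ℕ → ℕ} {f g : ℕ → ℕ} (hF : Computable₂ F) (hf : TR O f) (hg : TR O g) :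
    TR O (fun n => F (f n) (g n)) := by
  have h1 : TR O (fun p : ℕ => F p.unpair.1 p.unpair.2) := by
    apply TR.of_computable
    exact hF.comp (Computable.fst.comp Computable.unpair) (Computable.snd.comp Computable.unpair)
  have h2 := h1.comp (hf.pair hg)
  exact h2.of_eq (fun n => by simp)

theorem TR.const (c : ℕ) : TR O (fun _ => c) := TR.of_computable (Computable.const c)

theorem TR.id : TR O (fun n => n) := TR.of_computable Computable.id

theorem TR.natRec {h : ℕ → ℕ → ℕ} (c : ℕ)
    (hh : TR O (fun p => h p.unpair.1 p.unpair.2)) :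
    TR O (fun n => Nat.rec c (fun k ih => h k ih) n) := by
  have h1 : Nat.RecursiveIn O (fun p : ℕ =>
      Part.some (h p.unpair.2.unpair.1 p.unpair.2.unpair.2)) := by
    have h2 : TR O (fun p : ℕ => p.unpair.2) :=
      TR.of_computable (Computable.snd.comp Computable.unpair)
    exact hh.comp h2
  have h3 := Nat.RecursiveIn.prec (TR.const (O := O) c) h1
  have h4 : TR O (fun n => Nat.pair 0 n) := TR.comp₂ Primrec₂.natPair.to_comp (TR.const 0) TR.id
  have h5 := Nat.RecursiveIn.comp h3 h4
  refine h5.of_eq (fun n => ?_)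
  simp only [Part.bind_eq_bind, Part.bind_some, Nat.unpair_pair]
  induction n with
  | zero => simp
  | succ k ih =>
    simp only [ih]
    simp

/-- Unbounded search: if `p a n` is decided by an oracle-recursive function
and always has a witness, then the least witness is oracle-recursive. -/
theorem TR.find {g : ℕ → ℕ → ℕ} (hg : TR O (fun p => g p.unpair.1 p.unpair.2))
    (h : ∀ a, ∃ n, g a n = 0) : TR O (fun a => Nat.find (h a)) := by
  have h1 := Nat.RecursiveIn.rfind hg
  refine Nat.RecursiveIn.of_eq_tot h1 (fun a => ?_)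
  refine Nat.mem_rfind.2 ⟨?_, ?_⟩
  · have := Nat.find_spec (h a)
    simp [this]
  · intro m hm
    have := Nat.find_min (h a) hm
    simp [this]

end Pool.Agent.H93
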